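import Pool.Agent.Helper61.MW.Main
import Pool.Agent.Helper61.MW.Asym

/-!
# MP_acd150_lc: no clause by clause reduction shows `W[2] ⊆ M[2]`

The weighted satisfiability problem for monotone formulas in conjunctive normal form (`k`-hitting set,
complete for `W[2]`) has no clause by clause reduction to the satisfiability problem of
`Γ_{2,d}`-formulas with few variables, if the formula which replaces a clause has polynomial size.
-/

set_option autoImplicit false

namespace Pool.Agent.Results.MP_acd150_lc.ClauseWise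

/-- A formula in the variables `0, …, V - 1` of the shape conjunction of disjunctions of conjunctions
of literals; the literal `(i, b)` says that the variable `i` has the value `b`. -/
abbrev Formula (V : ℕ) : Type := Finset (Finset (Finset (Fin V × Bool)))

/-- The class `Γ_{2,d}`: the innermost conjunctions have at most `d` literals. -/
def IsGamma {V : ℕ} (d : ℕ) (γ : Formula V) : Prop := ∀ D ∈ γ, ∀ t ∈ D, t.card ≤ d

/-- The assignment `z` satisfies the formula `γ`. -/
def Sat {V : ℕ} (γ : Formula V) (z : Fin V → Bool) : Prop :=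
  ∀ D ∈ γ, ∃ t ∈ D, ∀ l ∈ t, z l.1 = l.2

/-- The monotone formula `⋀_j ⋁_(v ∈ H j) X_v` has a satisfying assignment with exactly `k` true
variables: the sets `H j` have a hitting set with `k` elements. -/
def HittingSet {n N : ℕ} (k : ℕ) (H : Fin N → Finset (Fin n)) : Prop :=
  ∃ x : Finset (Fin n), x.card = k ∧ ∀ j, (x ∩ H j).Nonempty

/-- A clause by clause reduction (not necessarily computable) of the weighted satisfiability of
monotone CNF formulas with `n` variables and `N` clauses to the satisfiability of `Γ_{2,d}`-formulas: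
the `j`-th clause, with set of variables `S`, is replaced by the formula `ψ k n N j S`, and `χ` is
one more arbitrary condition. -/
structure Reduction (c d : ℕ) (ε δ : ℝ) (f g : ℕ → ℕ) where
  /-- the number of variables of the new formula -/
  V : ℕ → ℕ → ℕ → ℕ
  V_le : ∀ k n N, (V k n N : ℝ) ≤ g k * ((n + N + 1 : ℕ) : ℝ) ^ δ
  /-- the side condition -/
  χ : ∀ k n N, (Fin (V k n N) → Bool) → Prop
  /-- the formula which replaces the `j`-th clause -/
  ψ : ∀ k n N, Fin N → Finset (Fin n) → Formula (V k n N)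
  gamma : ∀ k n N j S, IsGamma d (ψ k n N j S)
  size : ∀ k n N j S, ((ψ k n N j S).card : ℝ) ≤
    f k * ((n + 1 : ℕ) : ℝ) ^ c * ((N + 1 : ℕ) : ℝ) ^ (1 - ε)
  correct : ∀ k n N (H : Fin N → Finset (Fin n)),
    HittingSet k H ↔ ∃ z, χ k n N z ∧ ∀ j, Sat (ψ k n N j (H j)) z

/-- number of innermost conjunctions -/
theorem card_terms (V d : ℕ) :
    ((Finset.univ : Finset (Finset (Fin V × Bool))).filter fun t => t.card ≤ d).card ≤
      (2 * V + 1) ^ d := by
  classical
  have h1 : Fintype.card (Fin d → Option (Fin V × Bool)) = (2 * V + 1) ^ d := by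
    rw [Fintype.card_fun, Fintype.card_option, Fintype.card_prod, Fintype.card_fin,
      Fintype.card_fin, Fintype.card_bool, mul_comm V 2]
  rw [← h1, ← Finset.card_univ]
  refine Finset.card_le_card_of_surjOn
    (fun f : Fin d → Option (Fin V × Bool) => Finset.univ.filter fun a => ∃ i, f i = some a) ?_
  intro t ht
  have ht' : t.card ≤ d := by simpa using ht
  refine ⟨fun i => if h : i.1 < t.card then some (t.equivFin.symm ⟨i.1, h⟩).1 else none,
    by simp, ?_⟩
  ext a
  simp only [Finset.mem_filter, Finset.mem_univ, true_and]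
  constructor
  · rintro ⟨i, hi⟩
    by_cases h : i.1 < t.card
    · rw [dif_pos h] at hi
      rw [← Option.some_inj.1 hi]
      exact (t.equivFin.symm ⟨i.1, h⟩).2
    · rw [dif_neg h] at hi
      exact absurd hi (by simp)
  · intro ha
    have h2 := (t.equivFin ⟨a, ha⟩).2
    refine ⟨⟨(t.equivFin ⟨a, ha⟩).1, lt_of_lt_of_le h2 ht'⟩, ?_⟩
    rw [dif_pos h2]
    simp

open Pool.Agent.Helper61.MW in
/-- For every exponent `c`, every `d` and every `ε > 0` there is `δ > 0` such that there is no clause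
by clause reduction of weighted monotone CNF satisfiability to the satisfiability of
`Γ_{2,d}`-formulas with at most `g(k) (n + N + 1)^δ` variables in which a clause is replaced by a
conjunction of at most `f(k) (n + 1)^c (N + 1)^(1 - ε)` formulas `⋁ ⋀_{≤ d}`, whatever the functions
`f`, `g` are. -/
theorem result (c d : ℕ) (ε : ℝ) (hε : 0 < ε) :
    ∃ δ : ℝ, 0 < δ ∧ ∀ f g : ℕ → ℕ, IsEmpty (Reduction c d ε δ f g) := by
  classical
  set e : ℕ := ⌈1 / ε⌉₊ with he
  have he1 : 1 ≤ e := Nat.one_le_iff_ne_zero.2 (Nat.ceil_pos.2 (by positivity)).ne'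
  have he2 : 1 / (e : ℝ) ≤ ε := by
    have h1 : 1 / ε ≤ (e : ℝ) := Nat.le_ceil _
    have h2 : (0 : ℝ) < e := by exact_mod_cast he1
    rw [div_le_iff₀ h2]
    rw [div_le_iff₀ hε] at h1
    linarith
  set D : ℕ := 2 * (c * e + 1) * (d + 1) * e with hD
  have hD1 : 0 < D := by rw [hD]; positivity
  refine ⟨1 / D, by positivity, fun f g => ⟨fun W => ?_⟩⟩
  set k := 2 * (c * e + 1) with hk
  obtain ⟨n, N, hnN⟩ := asym (c * e) d e (f k ^ e) (g k ^ D) he1
  set V := W.V k n N with hV
  set q := ⌊(f k : ℝ) * ((n + 1 : ℕ) : ℝ) ^ c * ((N + 1 : ℕ) : ℝ) ^ (1 - 1 / (e : ℝ))⌋₊ with hq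
  have hN1 : (1 : ℝ) ≤ ((N + 1 : ℕ) : ℝ) := by exact_mod_cast Nat.succ_pos N
  have heR : (0 : ℝ) < e := by exact_mod_cast he1
  have hDR : (0 : ℝ) < D := by exact_mod_cast hD1
  have hq1 : q ^ e ≤ f k ^ e * (n + 1) ^ (c * e) * (N + 1) ^ (e - 1) := by
    have h1 : (q : ℝ) ≤ (f k : ℝ) * ((n + 1 : ℕ) : ℝ) ^ c * ((N + 1 : ℕ) : ℝ) ^ (1 - 1 / (e : ℝ)) :=
      Nat.floor_le (by positivity)
    have h2 : (q : ℝ) ^ e ≤
        ((f k : ℝ) * ((n + 1 : ℕ) : ℝ) ^ c * ((N + 1 : ℕ) : ℝ) ^ (1 - 1 / (e : ℝ))) ^ e :=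
      pow_le_pow_left₀ (Nat.cast_nonneg _) h1 e
    have h3 : (((N + 1 : ℕ) : ℝ) ^ (1 - 1 / (e : ℝ))) ^ e = ((N + 1 : ℕ) : ℝ) ^ (e - 1) := by
      rw [← Real.rpow_natCast, ← Real.rpow_mul (by positivity), sub_mul, one_mul,
        one_div_mul_cancel heR.ne', ← Real.rpow_natCast]
      congr 1
      rw [Nat.cast_sub he1, Nat.cast_one]
    rw [mul_pow, mul_pow, h3, ← pow_mul] at h2
    exact_mod_cast h2
  have hV1 : V ^ (2 * (c * e + 1) * (d + 1) * e) ≤ g k ^ D * (n + N + 1) := by
    have h1 := W.V_le k n N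
    have h2 : ((V : ℕ) : ℝ) ^ D ≤ ((g k : ℝ) * ((n + N + 1 : ℕ) : ℝ) ^ (1 / (D : ℝ))) ^ D :=
      pow_le_pow_left₀ (Nat.cast_nonneg _) h1 D
    have h3 : (((n + N + 1 : ℕ) : ℝ) ^ (1 / (D : ℝ))) ^ D = ((n + N + 1 : ℕ) : ℝ) := by
      rw [← Real.rpow_natCast, ← Real.rpow_mul (by positivity), one_div_mul_cancel hDR.ne',
        Real.rpow_one]
    rw [mul_pow, h3] at h2
    exact_mod_cast h2
  obtain ⟨h1, h2⟩ := hnN q V hq1 hV1
  let 𝒢 : Finset (Finset (Finset (Fin V × Bool))) :=
    ((Finset.univ : Finset (Finset (Fin V × Bool))).filter fun t => t.card ≤ d).powerset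
  have h3 := core (k := k) (q := q) (L := V) (La := (2 * V + 1) ^ d)
    (Z := {z : Fin V → Bool // W.χ k n N z}) 𝒢
    (fun D z => ¬ ∃ t ∈ D, ∀ l ∈ t, z.1 l.1 = l.2) (W.ψ k n N) (by omega)
    (by
      refine (Fintype.card_subtype_le _).trans (le_of_eq ?_)
      rw [Fintype.card_fun, Fintype.card_bool, Fintype.card_fin])
    (by
      rw [Finset.card_powerset]
      exact Nat.pow_le_pow_right (by norm_num) (card_terms V d))
    (by
      intro j S D hD'
      rw [Finset.mem_powerset]
      intro t ht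
      exact Finset.mem_filter.2 ⟨Finset.mem_univ _, W.gamma k n N j S D hD' t ht⟩)
    (by
      intro j S
      refine Nat.le_floor ((W.size k n N j S).trans ?_)
      refine mul_le_mul_of_nonneg_left ?_ (by positivity)
      exact Real.rpow_le_rpow_of_exponent_le hN1 (by linarith))
    h1
    (by
      intro H
      have h4 := W.correct k n N H
      constructor
      · rintro ⟨x, hx, hx'⟩
        obtain ⟨z, hz, hz'⟩ := h4.1 ⟨x, hx, fun j => by
          have h5 := (mem_hit x (H j)).1 (hx' j)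
          rw [Finset.not_disjoint_iff_nonempty_inter] at h5
          exact h5⟩
        exact ⟨⟨z, hz⟩, fun j D hD' => not_not.2 (hz' j D hD')⟩
      · rintro ⟨z, hz⟩
        obtain ⟨x, hx, hx'⟩ := h4.2 ⟨z.1, z.2, fun j D hD' => not_not.1 (hz j D hD')⟩
        refine ⟨x, hx, fun j => (mem_hit x (H j)).2 ?_⟩
        rw [Finset.not_disjoint_iff_nonempty_inter]
        exact hx' j)
  exact absurd h3 (not_le.2 h2)

end Pool.Agent.Results.MP_acd150_lc.ClauseWise
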